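import Pool.Agent.U365.POW.J
import Pool.Agent.Results.MP_2d259b_nt.MultiplicativeValues

/-!
# Effective bounds for the integer points on all curves `F(x, y) = t`, `|t|` near `s(m)`, `m - φ(m)` or `α m + β f(m)`

Let `s(m)` be the sum of the proper divisors of `m`. Let `G` be a function with steps bounded below by a positive constant and
growth at most `v ^ δ`, for example `G v = v`. Let `d ≥ 4` and `e = δ (1 / d + η (d + 1) (d + 2) / 2) + κ < 1`. For a set of `m`
of lower density at least `1 - e`, for EVERY integer `t` with `||t| - G (s(m))| ≤ s(m) ^ κ` and ALL polynomials `F ∈ ℤ[x, y]` of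
degree `d` with squarefree leading form and `h(F) ≤ K (1 + |t|) ^ η`, all integer points of the curve `F(x, y) = t` are bounded
by an explicit power of `h(F) + |t|`; and the same holds for `m - φ(m)`. More precisely this holds for almost all `m` with a
divisor `≥ m ^ (e + ρ)` which is a prime or the product of two different primes, and for the values `g = α m + β f(m)` of
multiplicative functions with `f p = p + c` at the primes, uniformly in `|α|, |β| ≤ N ^ δ'` and with a power saving in the
number of the exceptional `m`.

Proof. The exceptional `t` have a power saving (starting theorem). Let `m = k v p` with large primes `p ≠ v`. Then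
`g = A v p + B (v + p) + B c`, `A = α k + β f(k)`, `B = β c f(k)`, and so `(A v + B) (A p + B) = A g + B² - A B c`: for given `g`,
`k`, `α`, `β` there are only `N^o(1)` possibilities for `p` and `v`.

If the exponent `e` is smaller than `1/2`, no divisor is needed: the property holds for almost all `m` (for all `m ≤ N` but at
most `N / (log N) ^ A`, for every `A`), for all `α ≠ 0`, `β`. Here we use the divisors `D` of `m` without small prime factors:
`α m` is congruent to `g` modulo `f(D)`; if the size of all such `D` is inconvenient, then `m = R D` where the prime factors of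
`D` are so large that `D` lies in a short interval which is given by `R` and `g`.
-/

set_option autoImplicit false

namespace Pool.Agent.Results.MP_2d259b_nt.AliquotValues

open Pool.Agent.U365.POW (Law NearAll law_of law_mono)
open Pool.Agent.N733.TG (Expanding)
open Pool.Agent.Results.MP_2d259b_nt.MultiplicativeValues (len Regular Bounded fin_abs countS)

/-- For every integer `t` with `||t| - G g| ≤ g ^ κ` and all polynomials `F ∈ ℤ[x, y]` of degree `d` with squarefree leading
form and `h(F) ≤ K (1 + |t|) ^ η`, all integer points of `F(x, y) = t` satisfy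
`max(|x|, |y|) ≤ ((d + 1) (h(F) + |t|)) ^ (10 ^ 17 * 1296 ^ d * (d + 1) ^ 15)`. -/
def Near (d : ℕ) (η K : ℝ) (G : ℕ → ℝ) (κ : ℝ) (g : ℕ) : Prop :=
  ∀ t : ℤ, |(|t| : ℝ) - G g| ≤ (g : ℝ) ^ κ → ∀ F : MvPolynomial (Fin 2) ℤ, Regular d F →
    (len F : ℝ) ≤ K * (1 + |(t : ℝ)|) ^ η → Bounded d F t

/-- **Theorem.** Let `G` have steps `≥ a > 0` and growth at most `v ^ δ`. Let `d ≥ 4`, `η, κ ≥ 0`, and `e = δ (1 / d + η (d + 1) (d
+ 2) / 2) + κ < 1`. The property `Near` holds for the values of similar functions as the aliquot sum with the exponent `e`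
(`Law`): if this exponent is smaller than `1/2`, then (1) for ALL `α m + β f(m)` at almost all `m`, and so for `s(m)` and `m -
φ(m)` for almost all `m`; in general, (2) at almost all the `m` with a divisor `≥ m ^ (e + ρ)` which is a prime or the product
of two different primes, and for `s(m)` and `m - φ(m)` for a set of `m` of lower density at least `1 - (e)`. -/
theorem result : ∀ (G : ℕ → ℝ) (δ : ℝ), Expanding G δ → ∀ (d : ℕ) (η κ : ℝ), 4 ≤ d → 0 ≤ η → 0 ≤ κ →
      δ * (1 / (d : ℝ) + η * (((d + 1) * (d + 2) / 2 : ℕ) : ℝ)) + κ < 1 → ∀ K : ℝ,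
      Law (δ * (1 / (d : ℝ) + η * (((d + 1) * (d + 2) / 2 : ℕ) : ℝ)) + κ) (Near d η K G κ) := by
  intro G δ hG d η κ hd hη hκ h1 K
  have h2 := law_of (T := ℤ) (fun _ => True)
    (fun t => ∀ F : MvPolynomial (Fin 2) ℤ, Regular d F → (len F : ℝ) ≤ K * (1 + |(t : ℝ)|) ^ η → Bounded d F t)
    (fun t : ℤ => |(t : ℝ)|) hG
    (s := 1 / (d : ℝ) + η * (((d + 1) * (d + 2) / 2 : ℕ) : ℝ)) (κ := κ) (by positivity) hκ h1 (fun ε hε => by
      obtain ⟨C, hC⟩ := countS d hd K η hη
      have hC0 : 0 ≤ C := by
        have h2 := hC 1 le_rfl
        rw [Real.one_rpow, mul_one] at h2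
        exact le_trans (Nat.cast_nonneg _) h2
      refine ⟨C, fun X hX => ⟨fin_abs _ X, ?_⟩⟩
      refine le_trans (le_of_eq ?_) ((hC X hX).trans (mul_le_mul_of_nonneg_left
        (Real.rpow_le_rpow_of_exponent_le hX (by linarith)) hC0))
      congr 2
      ext t
      simp only [Set.mem_ofPred_eq, true_and]
      push Not
      rfl)
  exact law_mono h2 (fun g h t ht => h t trivial ht)

end Pool.Agent.Results.MP_2d259b_nt.AliquotValues
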