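import Pool.Agent.U536.CF.F
import Pool.Agent.Results.MP_2d259b_nt.MultiplicativeValues

/-!
# Effective bounds for the integer points on all curves `F(x, y) = t`, `t` near integers with a large common factor with a value of a multiplicative function

Let `f` be a positive multiplicative function of at most polynomial growth such that `f p ≤ M p` for the large primes `p`,
with different values at different large primes; for example Euler's function or the sum of the divisors. Let `G` have
steps bounded below by a positive constant and growth at most `v^δ`, for example `α v^δ`. Let `b < 1` and `0 ≤ c < 2 b -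
1`. For all `m ≤ N` but `N exp (-(log N)^c)`, for EVERY integer `w ≥ exp ((log N)^b)` with `gcd(w, f(m)) ≥ w^ρ`, for EVERY
integer `t` with `||t| - G w| ≤ w ^ κ` and ALL polynomials `F ∈ ℤ[x, y]` of degree `d` with squarefree leading form and
`h(F) ≤ K (1 + |t|) ^ η`, all integer points `(x, y)` of `F(x, y) = t` satisfy `max(|x|, |y|) ≤ ((d + 1) (h(F) + |t|)) ^
(10 ^ 17 * 1296 ^ d * (d + 1) ^ 15)`, if `d ≥ 4`, `η, κ ≥ 0`, `K` real, and `δ (1 / d + η (d + 1) (d + 2) / 2) + κ < ρ ≤
1`. The integers `w` include all large divisors of `f(m)` and their multiples by small integers; for Euler's function, the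
orders of the elements of the group of units modulo `m`.

Proof. Write `m = k u` with `u` squarefree and composed of primes larger than `N^(1/J)`, `J = (log N)^a`, and `k ≤ exp (4
(log N)^a)`; this is possible for all `m ≤ N` but very few. If `v ∣ f(k) f(u)`, then `v = g v'` with `g ∣ f(k)` and `v' ∣
∏ f(p)`, and the number of such `u ≤ N / k` is at most `N / (k v')` times `(log N)^O(J)` times the number `τ_J(v')` of the
ordered factorizations of `v'` into `J` factors. The inequality `τ_J^q ≤ τ_K` for `K ≥ J^q` and Hölder's inequality bound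
the sum over the sparse set of the exceptional `v`. The file `MultiplicativeValues` of the starting library treats the
integers `w = f(m)`, with `N / (log N)^U` exceptions.
-/

set_option autoImplicit false

namespace Pool.Agent.Results.MP_2d259b_nt.CommonFactors

open Pool.Agent.N733.TG (LM Expanding lm_totient lm_sigma expanding_pow)
open Pool.Agent.U536.CF (Common common_good common_of_dvd common_order)
open Pool.Agent.Results.MP_2d259b_nt.MultiplicativeValues (len Regular Bounded fin_abs countS)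

/-- **Effective bounds for the integer points on all curves `F(x, y) = t`, `t` near integers with a large common factor with a
value of a multiplicative function.** Let `f` be multiplicative and positive, of at most polynomial growth, with `f p ≤ M
p` at the large primes, and injective there. Let `G` have steps `≥ a > 0` and growth at most `v^δ`. Let `b < 1` and `0 ≤ c
< 2 b - 1`, `d ≥ 4`, `η, κ ≥ 0`, `K` real, and `δ (1 / d + η (d + 1) (d + 2) / 2) + κ < ρ ≤ 1`. For all large `N`, for all
`m ≤ N` but `N exp (-(log N)^c)`, for EVERY integer `w ≥ exp ((log N)^b)` with `gcd(w, f(m)) ≥ w^ρ`, for EVERY integer `t`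
with `||t| - G w| ≤ w ^ κ` and ALL polynomials `F ∈ ℤ[x, y]` of degree `d` with squarefree leading form and `h(F) ≤ K (1 +
|t|) ^ η`, all integer points `(x, y)` of `F(x, y) = t` satisfy `max(|x|, |y|) ≤ ((d + 1) (h(F) + |t|)) ^ (10 ^ 17 * 1296
^ d * (d + 1) ^ 15)`. All divisors `w ≥ exp ((log N)^b)` of `f(m)` are such integers `w`, and for Euler's function the
orders `≥ exp ((log N)^b)` of the units modulo `m`. Euler's function and the sum of the divisors are examples of `f`, and
`α v^δ` with `α > 0`, `δ ≥ 1` is an example of `G`. -/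
theorem result :
    (∀ f : ℕ → ℕ, LM f → ∀ (G : ℕ → ℝ) (δ : ℝ), Expanding G δ → ∀ (d : ℕ) (η κ ρ b c : ℝ), 4 ≤ d → 0 ≤ η → 0 ≤ κ →
      δ * (1 / (d : ℝ) + η * (((d + 1) * (d + 2) / 2 : ℕ) : ℝ)) + κ < ρ → ρ ≤ 1 → b < 1 → 0 ≤ c → c < 2 * b - 1 →
      ∀ K : ℝ, ∃ N₀ : ℕ, ∀ N : ℕ, N₀ ≤ N →
      ({m : ℕ | 1 ≤ m ∧ m ≤ N ∧ ¬ ∀ w : ℕ, Common f b ρ N m w → ∀ t : ℤ, |(|t| : ℝ) - G w| ≤ (w : ℝ) ^ κ →
        ∀ F : MvPolynomial (Fin 2) ℤ, Regular d F → (len F : ℝ) ≤ K * (1 + |(t : ℝ)|) ^ η →
          Bounded d F t}.ncard : ℝ) ≤ N * Real.exp (-(Real.log N ^ c))) ∧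
    (LM Nat.totient ∧ LM (fun m => ∑ d ∈ m.divisors, d)) ∧
    (∀ α d : ℝ, 0 < α → 1 ≤ d → Expanding (fun v => α * (v : ℝ) ^ d) d) ∧
    (∀ (f : ℕ → ℕ) (b ρ : ℝ) (N m w : ℕ), ρ ≤ 1 → Real.exp (Real.log N ^ b) ≤ (w : ℝ) → w ∣ f m → Common f b ρ N m w) ∧
    ∀ (b ρ : ℝ) (N m : ℕ), ρ ≤ 1 → ∀ x : (ZMod m)ˣ, Real.exp (Real.log N ^ b) ≤ (orderOf x : ℝ) →
      Common Nat.totient b ρ N m (orderOf x) := by
  refine ⟨?_, ⟨lm_totient, lm_sigma⟩, fun α d hα hd => expanding_pow hα hd, fun f b ρ N m w hρ hw hd => common_of_dvd hρ hw hd,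
    fun b ρ N m hρ x hx => common_order hρ x hx⟩
  intro f hf G δ hG d η κ ρ b c hd hη hκ h1 hρ hb hc hcb K
  obtain ⟨N₀, hN₀⟩ := common_good (T := ℤ) (fun _ => True)
    (fun t => ∀ F : MvPolynomial (Fin 2) ℤ, Regular d F → (len F : ℝ) ≤ K * (1 + |(t : ℝ)|) ^ η → Bounded d F t)
    (fun t : ℤ => |(t : ℝ)|) hf hG
    (s := 1 / (d : ℝ) + η * (((d + 1) * (d + 2) / 2 : ℕ) : ℝ)) (κ := κ) (by positivity) hκ h1 hρ hb hc hcb (fun ε hε => by
      obtain ⟨C, hC⟩ := countS d hd K η hη
      have hC0 : 0 ≤ C := by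
        have h2 := hC 1 le_rfl
        rw [Real.one_rpow, mul_one] at h2
        exact le_trans (Nat.cast_nonneg _) h2
      refine ⟨C, fun X hX => ⟨fin_abs _ X, ?_⟩⟩
      refine le_trans (le_of_eq ?_) ((hC X hX).trans (mul_le_mul_of_nonneg_left
        (Real.rpow_le_rpow_of_exponent_le hX (by linarith)) hC0))
      congr 2
      ext t
      simp only [Set.mem_ofPred_eq, true_and]
      push Not
      rfl)
  refine ⟨N₀, fun N hN => le_trans (le_of_eq ?_) (hN₀ N hN)⟩
  congr 2
  ext m
  simp only [Set.mem_ofPred_eq, true_imp_iff]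

end Pool.Agent.Results.MP_2d259b_nt.CommonFactors
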