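import Pool.Agent.U46.Bjl
import Pool.Agent.N656.BD.End
import Pool.Agent.N656.BD.Sub

/-!
# The joint law of the coefficients and the integer solution of a random plane curve

Let `a, b ≥ 2`, let `M = (a + 1)(b + 1)` and `s = 1 / (24 (min a b - 1))`. For a closed convex set `Ω` in
the cube `[-1, 1] ^ M` we consider the polynomials `f` in `ℤ[x, y]` of degree at most `a` in `x` and at
most `b` in `y` whose coefficient vector lies in `H Ω`.

* For every such `Ω`, every set `A` of integer points and every `H ≥ 1`, the number of these `f` for which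
  the set `Z(f)` of all integer solutions is finite and meets `A` is
  `(∑_{P ∈ A} V(Ω, P)) H ^ (M - 1) + O(H ^ (M - 1 - s))`, where `V(Ω, P)` is the volume of the section of
  `Ω` by the hyperplane of the polynomials that vanish at `P`. The implied constant depends on `a` and
  `b` only: the estimate is uniform in `Ω`, `A` and `H`. Only `O(H ^ (M - 1 - s))` of the `f` with
  coefficients in `[-H, H]` have more than one integer solution.
* If `Ω` contains in its interior a real polynomial which vanishes at some integer point, then the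
  number of the `f` in `H Ω` for which `Z(f)` is finite and not empty is asymptotic to a positive
  constant times `H ^ (M - 1)`, almost all `f` in `H Ω` with an integer solution are absolutely
  irreducible and have exactly one integer solution, and its law converges, with a power saving and
  uniformly in `A`, to the law with weights proportional to `V(Ω, P)`.

So the pair of the coefficient vector (divided by `H`) and the integer solution has an explicit limit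
law with a power saving; for small `Ω` this describes the integer solutions of the polynomials near a
given real polynomial. The starting file `BidegreeLimitLaw` treats the case that `Ω` is the whole cube,
without a rate.
-/

set_option autoImplicit false

open MeasureTheory Filter Topology

namespace Pool.Agent.Results.MP_2d259b_nt.JointLaw

/-- the pairs `(j, i)` with `0 ≤ j ≤ b` and `0 ≤ i ≤ a`; the pair `(j, i)` belongs to the monomial
`x ^ i y ^ j` -/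
abbrev Monomials (a b : ℕ) : Type := Fin (b + 1) × Fin (a + 1)

/-- the pairs `(j, i) ≠ (0, 0)` with `0 ≤ j ≤ b` and `0 ≤ i ≤ a` -/
abbrev Exponents (a b : ℕ) : Type := {m : Fin (b + 1) × Fin (a + 1) // (m.1 : ℕ) + m.2 ≠ 0}

/-- the coefficient vector of the polynomial with the constant coefficient `c` and the other
coefficients `u` -/
noncomputable def withConstant {a b : ℕ} (u : Exponents a b → ℝ) (c : ℝ) : Monomials a b → ℝ :=
  fun m => if h : (m.1 : ℕ) + m.2 ≠ 0 then u ⟨m, h⟩ else c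

/-- `V(Ω, P)`, `P = (x, y)`: the `(M - 1)`-dimensional volume of the set of the `u = (u_m)`, indexed by
the nonconstant monomials `m = X ^ i Y ^ j` with `i ≤ a` and `j ≤ b`, for which the real polynomial
`∑ u_m X ^ i Y ^ j - ∑ u_m x ^ i y ^ j`, which vanishes at `P`, lies in `Ω` -/
noncomputable def V {a b : ℕ} (Ω : Set (Monomials a b → ℝ)) (P : ℤ × ℤ) : ℝ :=
  volume.real {u : Exponents a b → ℝ | withConstant u
    (-∑ m, u m * ((P.1 : ℝ) ^ (m.1.2 : ℕ) * (P.2 : ℝ) ^ (m.1.1 : ℕ))) ∈ Ω}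

/-- the coefficient vector of an integer polynomial, divided by `H` -/
noncomputable def coeffs (a b H : ℕ) (f : MvPolynomial (Fin 2) ℤ) : Monomials a b → ℝ :=
  fun m => ((f.coeff (Finsupp.single 0 (m.2 : ℕ) + Finsupp.single 1 (m.1 : ℕ)) : ℤ) : ℝ) / H

/-- the polynomials of degree at most `a` in `x` and at most `b` in `y` with coefficient vector in
`H Ω` -/
def Region {a b : ℕ} (Ω : Set (Monomials a b → ℝ)) (H : ℕ) : Set (MvPolynomial (Fin 2) ℤ) :=
  {f | f.degreeOf 0 ≤ a ∧ f.degreeOf 1 ≤ b ∧ coeffs a b H f ∈ Ω}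

/-- the integer solutions of `f = 0` -/
def Z (f : MvPolynomial (Fin 2) ℤ) : Set (ℤ × ℤ) := {P | MvPolynomial.eval ![P.1, P.2] f = 0}

/-- the number of the `f` with coefficient vector in `H Ω` for which `Z(f)` is finite and contains a
point of `A` -/
noncomputable def number {a b : ℕ} (Ω : Set (Monomials a b → ℝ)) (A : Set (ℤ × ℤ)) (H : ℕ) : ℕ :=
  Set.ncard {f ∈ Region Ω H | (Z f).Finite ∧ ∃ P ∈ A, P ∈ Z f}

/-- the exponent `1 / (24 (min a b - 1))` of the power saving -/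
noncomputable def saving (a b : ℕ) : ℝ := 1 / (24 * (((min a b : ℕ) : ℝ) - 1))

open Pool.Agent.N656.LL Pool.Agent.N656.BD Pool.Agent.U46

lemma mem_Z {a b : ℕ} (w : Ix a b → ℤ) (P : ℤ × ℤ) :
    P ∈ Z (pB (i := a + 2) (j := b + 2) w) ↔ G w P.1 P.2 = 0 := by
  unfold Z
  rw [Set.mem_ofPred_eq, eval_pB]

lemma ex_eq {i j : ℕ} (q : Bd i j) :
    (Finsupp.single 0 (q.2 : ℕ) + Finsupp.single 1 (q.1 : ℕ) : Fin 2 →₀ ℕ) = ex q := by
  ext k
  fin_cases k
  · show _ = ex q 0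
    rw [ex_zero]
    simp
  · show _ = ex q 1
    rw [ex_one]
    simp

lemma coeffs_pB {a b H : ℕ} (w : Ix a b → ℤ) :
    coeffs (a + 2) (b + 2) H (pB (i := a + 2) (j := b + 2) w) = fun p => (w p : ℝ) / H := by
  funext m
  unfold coeffs
  rw [ex_eq, coeff_pB]

/-- counting polynomials is counting coefficient vectors -/
lemma ncard_region {a b : ℕ} (Ω : Set (Monomials (a + 2) (b + 2) → ℝ)) (H : ℕ)
    (C : MvPolynomial (Fin 2) ℤ → Prop) :
    Set.ncard {f ∈ Region Ω H | C f} =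
    Set.ncard {w : Ix a b → ℤ | (fun p => (w p : ℝ) / H) ∈ Ω ∧ C (pB (i := a + 2) (j := b + 2) w)} := by
  have h1 : {f ∈ Region Ω H | C f} =
      (fun w : Ix a b → ℤ => pB (i := a + 2) (j := b + 2) w) ''
        {w : Ix a b → ℤ | (fun p => (w p : ℝ) / H) ∈ Ω ∧ C (pB (i := a + 2) (j := b + 2) w)} := by
    ext F
    constructor
    · rintro ⟨⟨h1, h2, h3⟩, h4⟩
      have h5 := eq_pB F h1 h2
      rw [h5] at h3 h4
      rw [coeffs_pB] at h3
      exact ⟨_, ⟨h3, h4⟩, h5.symm⟩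
    · rintro ⟨w, ⟨h1, h2⟩, rfl⟩
      exact ⟨⟨(deg_pB _).1, (deg_pB _).2, by rw [coeffs_pB]; exact h1⟩, h2⟩
  rw [h1, Set.ncard_image_of_injective _ pB_inj]

lemma lft_eq' {a b : ℕ} (P : ℤ × ℤ) (u : Exponents (a + 2) (b + 2) → ℝ) :
    withConstant u (-∑ m, u m * ((P.1 : ℝ) ^ (m.1.2 : ℕ) * (P.2 : ℝ) ^ (m.1.1 : ℕ))) =
      lft (eIx a b) (mn a b P) u := by
  have h1 : ∑ m, u m * ((P.1 : ℝ) ^ (m.1.2 : ℕ) * (P.2 : ℝ) ^ (m.1.1 : ℕ)) =
      ∑ m, u m * (mn a b P m : ℝ) := by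
    refine Finset.sum_congr rfl fun m _ => ?_
    unfold mn
    push_cast
    rfl
  rw [h1]
  funext p
  obtain ⟨o, rfl⟩ := (eIx a b).surjective p
  cases o with
  | none =>
    rw [lft_none]
    unfold withConstant
    have h2 : ¬ (((eIx a b none).1 : ℕ) + (eIx a b none).2 ≠ 0) := by
      show ¬ (((z0 a b).1 : ℕ) + (z0 a b).2 ≠ 0)
      simp [z0, ix]
    rw [dif_neg h2]
  | some m =>
    rw [lft_some]
    unfold withConstant
    have h2 : ((eIx a b (some m)).1 : ℕ) + (eIx a b (some m)).2 ≠ 0 := m.2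
    rw [dif_pos h2]
    rfl

lemma V_eq {a b : ℕ} (Ω : Set (Monomials (a + 2) (b + 2) → ℝ)) :
    V Ω = fun P => vscn (eIx a b) (mn a b P) Ω := by
  funext P
  unfold V vscn scn
  simp only [lft_eq']

lemma V_nonneg {a b : ℕ} (Ω : Set (Monomials a b → ℝ)) (P : ℤ × ℤ) : 0 ≤ V Ω P := measureReal_nonneg

lemma V_summable {a b : ℕ} {Ω : Set (Monomials (a + 2) (b + 2) → ℝ)}
    (hb : ∀ w ∈ Ω, ∀ m, |w m| ≤ 1) : Summable (V Ω) := by
  refine Summable.of_nonneg_of_le (V_nonneg Ω) (fun P => ?_) (datb a b).summable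
  rw [V_eq]
  exact vscn_le hb

/-- the sum over all monomials -/
lemma sum_monomials {a b : ℕ} (P : ℤ × ℤ) (w : Monomials (a + 2) (b + 2) → ℝ) :
    ∑ m, w m * ((P.1 : ℝ) ^ (m.2 : ℕ) * (P.2 : ℝ) ^ (m.1 : ℕ)) =
      w (eIx a b none) + ∑ m : JJ a b, w (eIx a b (some m)) * (mn a b P m : ℝ) := by
  rw [← (Fintype.sum_equiv (eIx a b)
      (fun o => w (eIx a b o) * ((P.1 : ℝ) ^ ((eIx a b o).2 : ℕ) * (P.2 : ℝ) ^ ((eIx a b o).1 : ℕ))) _
      (fun o => rfl)), Fintype.sum_option]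
  congr 1
  · show w (eIx a b none) * ((P.1 : ℝ) ^ ((z0 a b).2 : ℕ) * (P.2 : ℝ) ^ ((z0 a b).1 : ℕ)) = _
    simp [z0, ix]
  · refine Finset.sum_congr rfl fun m _ => ?_
    unfold mn
    push_cast
    rfl

lemma V_pos {a b : ℕ} {Ω : Set (Monomials (a + 2) (b + 2) → ℝ)} (hb : ∀ w ∈ Ω, ∀ m, |w m| ≤ 1)
    (P : ℤ × ℤ) {w : Monomials (a + 2) (b + 2) → ℝ} (hw : w ∈ interior Ω)
    (h0 : ∑ m, w m * ((P.1 : ℝ) ^ (m.2 : ℕ) * (P.2 : ℝ) ^ (m.1 : ℕ)) = 0) : 0 < V Ω P := by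
  rw [V_eq]
  rw [sum_monomials] at h0
  exact vscn_pos hb hw h0

lemma reg_sub {a b : ℕ} {Ω : Set (Monomials (a + 2) (b + 2) → ℝ)} (hb : ∀ w ∈ Ω, ∀ m, |w m| ≤ 1)
    {H : ℕ} (hH : 1 ≤ H) {w : Ix a b → ℤ} (hw : (fun p => (w p : ℝ) / H) ∈ Ω) :
    w ∈ box (Ix a b) H := by
  have hH0 : (0 : ℝ) < H := by exact_mod_cast hH
  rw [mem_box]
  intro p
  have h1 := hb _ hw p
  rw [abs_div, abs_of_pos hH0, div_le_one hH0] at h1
  exact_mod_cast h1

lemma reg_fin {a b : ℕ} {Ω : Set (Monomials (a + 2) (b + 2) → ℝ)} (hb : ∀ w ∈ Ω, ∀ m, |w m| ≤ 1)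
    {H : ℕ} (hH : 1 ≤ H) (C : (Ix a b → ℤ) → Prop) :
    {w : Ix a b → ℤ | (fun p => (w p : ℝ) / H) ∈ Ω ∧ C w}.Finite :=
  (box (Ix a b) H).finite_toSet.subset fun _ h => reg_sub hb hH h.1

lemma number_le {a b : ℕ} {Ω : Set (Monomials (a + 2) (b + 2) → ℝ)} (hb : ∀ w ∈ Ω, ∀ m, |w m| ≤ 1)
    (A : Set (ℤ × ℤ)) {H : ℕ} (hH : 1 ≤ H) : (number Ω A H : ℝ) ≤
      Set.ncard {w : Ix a b → ℤ | (fun p => (w p : ℝ) / H) ∈ Ω ∧ ∃ P ∈ A, G w P.1 P.2 = 0} := by
  unfold number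
  rw [ncard_region]
  have h1 : {w : Ix a b → ℤ | (fun p => (w p : ℝ) / H) ∈ Ω ∧
      ((Z (pB (i := a + 2) (j := b + 2) w)).Finite ∧
        ∃ P ∈ A, P ∈ Z (pB (i := a + 2) (j := b + 2) w))} ⊆
      {w : Ix a b → ℤ | (fun p => (w p : ℝ) / H) ∈ Ω ∧ ∃ P ∈ A, G w P.1 P.2 = 0} := by
    rintro w ⟨hw, _, P, hP, hz⟩
    exact ⟨hw, P, hP, (mem_Z w P).1 hz⟩
  exact_mod_cast Set.ncard_le_ncard h1 (reg_fin hb hH _)

lemma number_ge {a b : ℕ} {Ω : Set (Monomials (a + 2) (b + 2) → ℝ)} (hb : ∀ w ∈ Ω, ∀ m, |w m| ≤ 1)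
    (A : Set (ℤ × ℤ)) {H : ℕ} (hH : 1 ≤ H) :
      (Set.ncard {w : Ix a b → ℤ | (fun p => (w p : ℝ) / H) ∈ Ω ∧ ∃ P ∈ A, G w P.1 P.2 = 0} : ℝ) ≤
      number Ω A H + Set.ncard {w : Ix a b → ℤ | w ∈ box (Ix a b) H ∧
        ∃ P Q : ℤ × ℤ, P ≠ Q ∧ G w P.1 P.2 = 0 ∧ G w Q.1 Q.2 = 0} := by
  unfold number
  rw [ncard_region]
  have h1 : {w : Ix a b → ℤ | (fun p => (w p : ℝ) / H) ∈ Ω ∧ ∃ P ∈ A, G w P.1 P.2 = 0} ⊆
      {w : Ix a b → ℤ | (fun p => (w p : ℝ) / H) ∈ Ω ∧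
      ((Z (pB (i := a + 2) (j := b + 2) w)).Finite ∧
        ∃ P ∈ A, P ∈ Z (pB (i := a + 2) (j := b + 2) w))} ∪
      {w : Ix a b → ℤ | w ∈ box (Ix a b) H ∧
        ∃ P Q : ℤ × ℤ, P ≠ Q ∧ G w P.1 P.2 = 0 ∧ G w Q.1 Q.2 = 0} := by
    rintro w ⟨hw, P, hP, hz⟩
    by_cases hf : (Z (pB (i := a + 2) (j := b + 2) w)).Finite
    · exact Or.inl ⟨hw, hf, P, hP, (mem_Z w P).2 hz⟩
    · right
      obtain ⟨Q, hQ, R, hR, hQR⟩ := Set.Infinite.nontrivial hf
      exact ⟨reg_sub hb hH hw, Q, R, hQR, (mem_Z w Q).1 hQ, (mem_Z w R).1 hR⟩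
  have hfin : {w : Ix a b → ℤ | w ∈ box (Ix a b) H ∧
        ∃ P Q : ℤ × ℤ, P ≠ Q ∧ G w P.1 P.2 = 0 ∧ G w Q.1 Q.2 = 0}.Finite :=
    (box (Ix a b) H).finite_toSet.subset fun _ h => h.1
  have h2 := (Set.ncard_le_ncard h1 ((reg_fin hb hH _).union hfin)).trans (Set.ncard_union_le _ _)
  exact_mod_cast h2

lemma number_mono {a b : ℕ} {Ω : Set (Monomials (a + 2) (b + 2) → ℝ)}
    (hb : ∀ w ∈ Ω, ∀ m, |w m| ≤ 1) {H : ℕ} (hH : 1 ≤ H) (A : Set (ℤ × ℤ)) :
    number Ω A H ≤ number Ω Set.univ H := by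
  unfold number
  rw [ncard_region, ncard_region]
  apply Set.ncard_le_ncard _ (reg_fin hb hH _)
  rintro w ⟨h1, h2, P, _, h3⟩
  exact ⟨h1, h2, P, Set.mem_univ _, h3⟩

lemma except_le {a b : ℕ} {Ω : Set (Monomials (a + 2) (b + 2) → ℝ)}
    (hb : ∀ w ∈ Ω, ∀ m, |w m| ≤ 1) {H : ℕ} (hH : 1 ≤ H) :
    (Set.ncard {f ∈ Region Ω H | (Z f).Nonempty ∧ ¬ ((∃ P, Z f = {P}) ∧
      Irreducible (MvPolynomial.map (Int.castRingHom (AlgebraicClosure ℚ)) f))} : ℝ) ≤
    Set.ncard {w : Ix a b → ℤ | w ∈ box (Ix a b) H ∧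
        ∃ P Q : ℤ × ℤ, P ≠ Q ∧ G w P.1 P.2 = 0 ∧ G w Q.1 Q.2 = 0} + NRb a b H := by
  rw [ncard_region]
  have h1 : {w : Ix a b → ℤ | (fun p => (w p : ℝ) / H) ∈ Ω ∧
      ((Z (pB (i := a + 2) (j := b + 2) w)).Nonempty ∧
        ¬ ((∃ P, Z (pB (i := a + 2) (j := b + 2) w) = {P}) ∧
          Irreducible (MvPolynomial.map (Int.castRingHom (AlgebraicClosure ℚ))
            (pB (i := a + 2) (j := b + 2) w))))} ⊆
      {w : Ix a b → ℤ | w ∈ box (Ix a b) H ∧
        ∃ P Q : ℤ × ℤ, P ≠ Q ∧ G w P.1 P.2 = 0 ∧ G w Q.1 Q.2 = 0} ∪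
      {w : Ix a b → ℤ | w ∈ box (Ix a b) H ∧ (∃ P : ℤ × ℤ, G w P.1 P.2 = 0) ∧
        ¬ Irreducible (MvPolynomial.map (Int.castRingHom (AlgebraicClosure ℚ))
          (pB (i := a + 2) (j := b + 2) w))} := by
    rintro w ⟨hw, ⟨P, hP⟩, hn⟩
    by_cases hi : Irreducible (MvPolynomial.map (Int.castRingHom (AlgebraicClosure ℚ))
            (pB (i := a + 2) (j := b + 2) w))
    · left
      by_contra hcon
      apply hn
      refine ⟨⟨P, ?_⟩, hi⟩
      rw [Set.eq_singleton_iff_unique_mem]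
      refine ⟨hP, fun Q hQ => ?_⟩
      by_contra hne
      exact hcon ⟨reg_sub hb hH hw, Q, P, hne, (mem_Z w Q).1 hQ, (mem_Z w P).1 hP⟩
    · exact Or.inr ⟨reg_sub hb hH hw, ⟨P, (mem_Z w P).1 hP⟩, hi⟩
  have hfin : ∀ C : (Ix a b → ℤ) → Prop, {w : Ix a b → ℤ | w ∈ box (Ix a b) H ∧ C w}.Finite :=
    fun C => (box (Ix a b) H).finite_toSet.subset fun _ h => h.1
  have h2 := (Set.ncard_le_ncard h1 ((hfin _).union (hfin _))).trans (Set.ncard_union_le _ _)
  unfold NRb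
  exact_mod_cast h2

theorem result (a b : ℕ) (ha : 2 ≤ a) (hb : 2 ≤ b) :
    -- the number of the polynomials with coefficients in `H Ω` for which `Z(f)` is finite and meets `A`
    (∃ C : ℝ, ∀ Ω : Set (Monomials a b → ℝ), Convex ℝ Ω → IsClosed Ω → (∀ w ∈ Ω, ∀ m, |w m| ≤ 1) →
      ∀ H : ℕ, 1 ≤ H → ∀ A : Set (ℤ × ℤ),
      |(number Ω A H : ℝ) - (∑' P : A, V Ω P) * (H : ℝ) ^ ((a + 1) * (b + 1) - 1)| ≤
        C * (H : ℝ) ^ (((a + 1) * (b + 1) - 1 : ℕ) - saving a b)) ∧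
    -- more than one integer solution
    (∃ C : ℝ, ∀ H : ℕ, 1 ≤ H → (Set.ncard {f : MvPolynomial (Fin 2) ℤ |
      (f.degreeOf 0 ≤ a ∧ f.degreeOf 1 ≤ b ∧ ∀ m, |f.coeff m| ≤ (H : ℤ)) ∧ (Z f).Nontrivial} : ℝ) ≤
        C * (H : ℝ) ^ (((a + 1) * (b + 1) - 1 : ℕ) - saving a b)) ∧
    -- the law of the integer solution for the coefficients in `H Ω`
    (∀ Ω : Set (Monomials a b → ℝ), Convex ℝ Ω → IsClosed Ω → (∀ w ∈ Ω, ∀ m, |w m| ≤ 1) →
      (∃ w ∈ interior Ω, ∃ P : ℤ × ℤ,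
        ∑ m, w m * ((P.1 : ℝ) ^ (m.2 : ℕ) * (P.2 : ℝ) ^ (m.1 : ℕ)) = 0) →
      0 < ∑' P, V Ω P ∧
      (∃ C : ℝ, ∀ H : ℕ, 1 ≤ H → ∀ A : Set (ℤ × ℤ),
        |(number Ω A H : ℝ) / number Ω Set.univ H - (∑' P : A, V Ω P) / ∑' P, V Ω P| ≤
          C / (H : ℝ) ^ saving a b) ∧
      Tendsto (fun H : ℕ => (Set.ncard {f ∈ Region Ω H | (Z f).Nonempty ∧ ¬ ((∃ P, Z f = {P}) ∧
        Irreducible (MvPolynomial.map (Int.castRingHom (AlgebraicClosure ℚ)) f))} : ℝ) /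
        number Ω Set.univ H) atTop (𝓝 0)) := by
  classical
  obtain ⟨a, rfl⟩ : ∃ a', a = a' + 2 := ⟨a - 2, by omega⟩
  obtain ⟨b, rfl⟩ : ∃ b', b = b' + 2 := ⟨b - 2, by omega⟩
  obtain ⟨C, hC0, hC⟩ := bd_convex a b
  obtain ⟨C₂, hC₂0, hC₂⟩ := bd_two a b
  have hsav : (1 : ℝ) / ((24 * (min a b + 1) : ℕ) : ℝ) = saving (a + 2) (b + 2) := by
    unfold saving
    congr 1
    have : min (a + 2) (b + 2) = min a b + 2 := by omega
    rw [this]
    push_cast
    ring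
  rw [hsav] at hC hC₂
  obtain ⟨s, hs⟩ : ∃ s : ℝ, s = saving (a + 2) (b + 2) := ⟨_, rfl⟩
  rw [← hs] at hC hC₂ ⊢
  have hs0 : 0 < s := by
    rw [hs, ← hsav]
    have : (0 : ℝ) < ((24 * (min a b + 1) : ℕ) : ℝ) := by exact_mod_cast (by omega)
    positivity
  have hn : Fintype.card (JJ a b) = (a + 2 + 1) * (b + 2 + 1) - 1 := by
    have h6 := card_JJ a b
    rw [card_Ix] at h6
    have h7 : (a + 2 + 1) * (b + 2 + 1) = (b + 3) * (a + 3) := by ring
    rw [h7]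
    omega
  obtain ⟨n, hnn⟩ : ∃ n : ℕ, n = (a + 2 + 1) * (b + 2 + 1) - 1 := ⟨_, rfl⟩
  rw [← hnn] at hn ⊢
  rw [hn] at hC hC₂
  obtain ⟨two, htwo⟩ : ∃ two : ℕ → ℝ, two = fun H => (Set.ncard {w : Ix a b → ℤ |
    w ∈ box (Ix a b) H ∧ ∃ P Q : ℤ × ℤ, P ≠ Q ∧ G w P.1 P.2 = 0 ∧ G w Q.1 Q.2 = 0} : ℝ) := ⟨_, rfl⟩
  have h2 : ∀ H : ℕ, 1 ≤ H → two H ≤ C₂ * ((H : ℝ) ^ n / (H : ℝ) ^ s) := fun H hH => by
    rw [htwo]
    exact hC₂ H hH
  have hmain : ∀ Ω : Set (Monomials (a + 2) (b + 2) → ℝ), Convex ℝ Ω → IsClosed Ω →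
      (∀ w ∈ Ω, ∀ m, |w m| ≤ 1) → ∀ H : ℕ, 1 ≤ H → ∀ A : Set (ℤ × ℤ),
      |(number Ω A H : ℝ) - (∑' P : A, V Ω P) * (H : ℝ) ^ n| ≤
        (C + C₂) * ((H : ℝ) ^ n / (H : ℝ) ^ s) := by
    intro Ω hc hcl hbd H hH A
    have h1 := hC Ω hc hcl hbd H hH A
    have h3 := number_le hbd A hH
    have h4 := number_ge hbd A hH
    have h5 := h2 H hH
    have h6 : (Set.ncard {w : Ix a b → ℤ | w ∈ box (Ix a b) H ∧
        ∃ P Q : ℤ × ℤ, P ≠ Q ∧ G w P.1 P.2 = 0 ∧ G w Q.1 Q.2 = 0} : ℝ) = two H := by rw [htwo]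
    rw [h6] at h4
    rw [_root_.tsum_subtype, V_eq]
    have e : (C + C₂) * ((H : ℝ) ^ n / (H : ℝ) ^ s) =
        C * ((H : ℝ) ^ n / (H : ℝ) ^ s) + C₂ * ((H : ℝ) ^ n / (H : ℝ) ^ s) := by ring
    have h7 : 0 ≤ (H : ℝ) ^ n / (H : ℝ) ^ s := by positivity
    have h8 : 0 ≤ C₂ * ((H : ℝ) ^ n / (H : ℝ) ^ s) := mul_nonneg hC₂0 h7
    rw [abs_le] at h1
    rw [e, abs_le]
    constructor
    · linarith [h1.1]
    · linarith [h1.2]
  have hpow : ∀ H : ℕ, 1 ≤ H → (H : ℝ) ^ ((n : ℝ) - s) = (H : ℝ) ^ n / (H : ℝ) ^ s := by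
    intro H hH
    have hH0 : (0 : ℝ) < H := by exact_mod_cast hH
    rw [Real.rpow_sub hH0, Real.rpow_natCast]
  refine ⟨⟨C + C₂, fun Ω hc hcl hbd H hH A => ?_⟩, ⟨C₂, fun H hH => ?_⟩,
    fun Ω hc hcl hbd ⟨w, hw, P, h0⟩ => ?_⟩
  · rw [hpow H hH]
    exact hmain Ω hc hcl hbd H hH A
  · rw [hpow H hH, ncard_pol]
    refine le_trans (le_of_eq ?_) (h2 H hH)
    rw [htwo]
    simp only
    congr 2
    ext w
    constructor
    · rintro ⟨hw, P, hP, Q, hQ, hPQ⟩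
      exact ⟨hw, P, Q, hPQ, (mem_Z w P).1 hP, (mem_Z w Q).1 hQ⟩
    · rintro ⟨hw, P, Q, hPQ, hP, hQ⟩
      exact ⟨hw, P, (mem_Z w P).2 hP, Q, (mem_Z w Q).2 hQ, hPQ⟩
  · have hsum := V_summable hbd
    have hVp := V_pos hbd P hw h0
    have hM : 0 < ∑' P, V Ω P := hsum.tsum_pos (V_nonneg Ω) P hVp
    obtain ⟨M, hMM⟩ : ∃ M : ℝ, M = ∑' P, V Ω P := ⟨_, rfl⟩
    rw [← hMM] at hM ⊢
    have hmU : ∀ H : ℕ, 1 ≤ H → |(number Ω Set.univ H : ℝ) - M * (H : ℝ) ^ n| ≤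
        (C + C₂) * ((H : ℝ) ^ n / (H : ℝ) ^ s) := by
      intro H hH
      have h3 := hmain Ω hc hcl hbd H hH Set.univ
      rw [_root_.tsum_subtype, Set.indicator_univ] at h3
      rw [hMM]
      exact h3
    refine ⟨hM, ⟨2 * (C + C₂) / M, fun H hH A => ?_⟩, ?_⟩
    · have hH1 : (1 : ℝ) ≤ H := by exact_mod_cast hH
      have hH0 : (0 : ℝ) < H := by linarith
      obtain ⟨α, hα⟩ : ∃ α : ℝ, α = number Ω A H := ⟨_, rfl⟩
      obtain ⟨β, hβ⟩ : ∃ β : ℝ, β = number Ω Set.univ H := ⟨_, rfl⟩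
      obtain ⟨v, hv⟩ : ∃ v : ℝ, v = ∑' P : A, V Ω P := ⟨_, rfl⟩
      obtain ⟨X, hX⟩ : ∃ X : ℝ, X = (H : ℝ) ^ n := ⟨_, rfl⟩
      obtain ⟨q, hq⟩ : ∃ q : ℝ, q = (H : ℝ) ^ s := ⟨_, rfl⟩
      have hX0 : 0 < X := by rw [hX]; positivity
      have hq0 : 0 < q := by rw [hq]; positivity
      have h1 : |α - v * X| ≤ (C + C₂) * (X / q) := by
        rw [hα, hv, hX, hq]
        exact hmain Ω hc hcl hbd H hH A
      have h2 : |β - M * X| ≤ (C + C₂) * (X / q) := by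
        rw [hβ, hX, hq]
        exact hmU H hH
      have hab : α ≤ β := by
        rw [hα, hβ]
        exact_mod_cast number_mono hbd hH A
      have ha0 : 0 ≤ α := by rw [hα]; exact Nat.cast_nonneg _
      rw [← hα, ← hβ, ← hv, ← hq]
      obtain ⟨r, hr⟩ : ∃ r : ℝ, r = α / β := ⟨_, rfl⟩
      have hr0 : 0 ≤ r := by rw [hr]; exact div_nonneg ha0 (ha0.trans hab)
      have hr1 : r ≤ 1 := by rw [hr]; exact div_le_one_of_le₀ hab (ha0.trans hab)
      have hrb : α = r * β := by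
        rcases eq_or_lt_of_le (ha0.trans hab) with h | h
        · have : α = 0 := by linarith
          rw [this, ← h, mul_zero]
        · rw [hr]
          field_simp
      rw [← hr]
      have h4 : |r - v / M| * (M * X) ≤ 2 * ((C + C₂) * (X / q)) := by
        have e1 : |r - v / M| * (M * X) = |(r - v / M) * (M * X)| := by
          rw [abs_mul, abs_of_pos (mul_pos hM hX0)]
        have e2 : (r - v / M) * (M * X) = (α - v * X) - r * (β - M * X) := by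
          rw [hrb]
          field_simp
          ring
        rw [e1, e2]
        calc |(α - v * X) - r * (β - M * X)| ≤ |α - v * X| + |r * (β - M * X)| := abs_sub _ _
          _ ≤ (C + C₂) * (X / q) + 1 * ((C + C₂) * (X / q)) := by
              rw [abs_mul, abs_of_nonneg hr0]
              exact add_le_add h1 (mul_le_mul hr1 h2 (abs_nonneg _) zero_le_one)
          _ = 2 * ((C + C₂) * (X / q)) := by ring
      have h5 : |r - v / M| ≤ 2 * ((C + C₂) * (X / q)) / (M * X) := by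
        rw [le_div_iff₀ (mul_pos hM hX0)]
        exact h4
      refine h5.trans (le_of_eq ?_)
      field_simp
    · have e1 : Tendsto (fun H : ℕ => 1 / (H : ℝ) ^ s) atTop (𝓝 0) := by
        have h3 := (tendsto_rpow_neg_atTop hs0).comp (tendsto_natCast_atTop_atTop (R := ℝ))
        refine h3.congr fun H => ?_
        simp only [Function.comp_apply]
        rw [Real.rpow_neg (Nat.cast_nonneg H), one_div]
      have e2 : Tendsto (fun H : ℕ => (number Ω Set.univ H : ℝ) / (H : ℝ) ^ n) atTop (𝓝 M) := by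
        have h3 : Tendsto (fun H : ℕ => (C + C₂) * (1 / (H : ℝ) ^ s)) atTop (𝓝 0) := by
          have := e1.const_mul (C + C₂)
          rwa [mul_zero] at this
        rw [tendsto_iff_dist_tendsto_zero]
        refine squeeze_zero' (Eventually.of_forall fun _ => dist_nonneg) ?_ h3
        filter_upwards [eventually_ge_atTop 1] with H hH
        have hH0 : (0 : ℝ) < H := by exact_mod_cast hH
        have hX0 : (0 : ℝ) < (H : ℝ) ^ n := by positivity
        have h4 := hmU H hH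
        rw [Real.dist_eq]
        have h5 : (number Ω Set.univ H : ℝ) / (H : ℝ) ^ n - M =
            ((number Ω Set.univ H : ℝ) - M * (H : ℝ) ^ n) / (H : ℝ) ^ n := by
          field_simp
        rw [h5, abs_div, abs_of_pos hX0, div_le_iff₀ hX0]
        refine h4.trans (le_of_eq ?_)
        ring
      have e3 : Tendsto (fun H : ℕ => ((two H + NRb a b H) / (H : ℝ) ^ n)) atTop (𝓝 0) := by
        have h3 : Tendsto (fun H : ℕ => C₂ * (1 / (H : ℝ) ^ s)) atTop (𝓝 0) := by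
          have := e1.const_mul C₂
          rwa [mul_zero] at this
        have h4 : Tendsto (fun H : ℕ => two H / (H : ℝ) ^ n) atTop (𝓝 0) := by
          refine squeeze_zero' (Eventually.of_forall fun H => ?_) ?_ h3
          · rw [htwo]
            positivity
          · filter_upwards [eventually_ge_atTop 1] with H hH
            have hH0 : (0 : ℝ) < H := by exact_mod_cast hH
            have hX0 : (0 : ℝ) < (H : ℝ) ^ n := by positivity
            rw [div_le_iff₀ hX0]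
            refine (h2 H hH).trans (le_of_eq ?_)
            ring
        have h5 := irr_rareB a b
        have h6 : (datb a b).n = n := hn
        rw [h6] at h5
        have h7 := h4.add h5
        rw [add_zero] at h7
        refine h7.congr fun H => ?_
        rw [add_div]
      have e4 : Tendsto (fun H : ℕ => ((two H + NRb a b H) / (H : ℝ) ^ n) /
          ((number Ω Set.univ H : ℝ) / (H : ℝ) ^ n)) atTop (𝓝 0) := by
        have := e3.div e2 hM.ne'
        rwa [zero_div] at this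
      refine squeeze_zero' (Eventually.of_forall fun H => ?_) ?_ e4
      · exact div_nonneg (Nat.cast_nonneg _) (Nat.cast_nonneg _)
      · filter_upwards [eventually_ge_atTop 1] with H hH
        have hH0 : (0 : ℝ) < H := by exact_mod_cast hH
        have hX0 : (0 : ℝ) < (H : ℝ) ^ n := by positivity
        rw [div_div_div_cancel_right₀ hX0.ne']
        apply div_le_div_of_nonneg_right _ (Nat.cast_nonneg _)
        have h8 := except_le hbd hH
        rw [htwo]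
        exact h8

end Pool.Agent.Results.MP_2d259b_nt.JointLaw
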